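import Pool.Agent.Y861.RT.Struct

/-!
# Membership in the subalgebras, and the quotients by the ideals of Hankel minors
-/

set_option autoImplicit false

namespace Pool.Agent.Y861.RT

open Polynomial Pool.Agent.W181.RT Module

/-- evaluation at the power sums -/
noncomputable abbrev ev (ℓ k m : ℕ) : MvPolynomial (Fin m) ℚ →ₐ[ℚ] RR ℓ k :=
  MvPolynomial.aeval (fun i : Fin m => qq ℓ k (i : ℕ))

theorem ph_ev (ℓ k m : ℕ) : Pool.Agent.W481.RT.ph ℓ k m = ev ℓ k m := rfl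

/-! ### gradedness -/

theorem exists_dec (ℓ k : ℕ) (x : RR ℓ k) :
    ∃ (s : Finset ℕ) (y : ℕ → RR ℓ k), (∀ D, y D ∈ RD ℓ k D) ∧ x = ∑ D ∈ s, y D := by
  obtain ⟨f, hf, hs⟩ := (Submodule.mem_iSup_iff_exists_finsupp _ _).1 (hDEC ℓ k x)
  exact ⟨f.support, f, hf, hs.symm⟩

/-- the homogeneous parts of an element of an ideal `PI` are in the ideal -/
theorem PI_part (ℓ k m : ℕ) (s : Finset ℕ) (y : ℕ → RR ℓ k) (hy : ∀ D, y D ∈ RD ℓ k D)
    (h : ∑ D ∈ s, y D ∈ PI (qq ℓ k) m) : ∀ D ∈ s, y D ∈ PI (qq ℓ k) m :=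
  Pool.Agent.W439.RT.sep ℓ k ((PI (qq ℓ k) m).restrictScalars ℚ) (fun z hz => hSTAB ℓ k m z hz)
    s y hy h

/-- a finite sum of homogeneous elements of different degrees vanishes only if all do -/
theorem sum_zero (ℓ k : ℕ) (s : Finset ℕ) (y : ℕ → RR ℓ k) (hy : ∀ D, y D ∈ RD ℓ k D)
    (h : ∑ D ∈ s, y D = 0) : ∀ D ∈ s, y D = 0 := by
  have h1 := Pool.Agent.W439.RT.sep ℓ k ⊥ (fun z hz => by
    rw [Submodule.mem_bot] at hz ⊢
    rw [hz, map_zero]) s y hy (by rw [h]; exact Submodule.zero_mem _)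
  intro D hD
  exact (Submodule.mem_bot ℚ).1 (h1 D hD)

/-- the homogeneous parts of an element of the annihilator are in the annihilator -/
theorem Ann_part (ℓ k m : ℕ) (s : Finset ℕ) (y : ℕ → RR ℓ k) (hy : ∀ D, y D ∈ RD ℓ k D)
    (h : ∑ D ∈ s, y D ∈ AnnP ℓ k m) : ∀ D ∈ s, y D ∈ AnnP ℓ k m := by
  intro D hD z hz
  obtain ⟨t, w, hw, rfl⟩ := exists_dec ℓ k z
  have hwP := PI_part ℓ k m t w hw hz
  rw [Finset.mul_sum]
  apply Finset.sum_eq_zero
  intro E hE
  have h1 : (∑ D ∈ s, y D) * w E = 0 := h _ (hwP E hE)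
  rw [Finset.sum_mul] at h1
  -- reindex by `D + E`
  have h2 : ∑ F ∈ s.map ⟨fun D => D + E, fun a b hab => Nat.add_right_cancel hab⟩,
      (if E ≤ F then y (F - E) * w E else 0) = 0 := by
    rw [Finset.sum_map]
    refine Eq.trans ?_ h1
    apply Finset.sum_congr rfl
    intro D _
    show (if E ≤ D + E then y (D + E - E) * w E else 0) = y D * w E
    rw [if_pos (Nat.le_add_left _ _), Nat.add_sub_cancel]
  have h3 := sum_zero ℓ k _ (fun F => if E ≤ F then y (F - E) * w E else 0) (by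
    intro F
    show (if E ≤ F then y (F - E) * w E else 0) ∈ RD ℓ k F
    split_ifs with hF
    · have := RD_mul ℓ k (F - E) E _ _ (hy (F - E)) (hw E)
      rwa [Nat.sub_add_cancel hF] at this
    · exact Submodule.zero_mem _) h2 (D + E) (by
      rw [Finset.mem_map]
      exact ⟨D, hD, rfl⟩)
  simpa using h3

/-- Gaussian binomial coefficients -/
noncomputable def gb (n r : ℕ) : Polynomial ℕ :=
  ∑ S ∈ (Finset.univ : Finset (Fin n)).powersetCard r,
    (Polynomial.X : Polynomial ℕ) ^ ((∑ s ∈ S, (s : ℕ)) - r * (r - 1) / 2)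

theorem gb_QB : QB gb := fun _ _ => rfl

theorem ann_le (ℓ k m : ℕ) (hm : m ≤ min k ℓ) : AnnP ℓ k m ≤ Rm ℓ k m := by
  intro x hx
  obtain ⟨s, y, hy, rfl⟩ := exists_dec ℓ k x
  have h := Ann_part ℓ k m s y hy hx
  apply Submodule.sum_mem
  intro D hD
  exact ann_le_D gb_QB ℓ k m hm D ⟨h D hD, hy D⟩

/-! ### the criterion -/

open Pool.Agent.W481.RT in
/-- the homogeneous case of the criterion -/
theorem crit_hom (ℓ k m D : ℕ) (hm : m + 1 ≤ min k ℓ) (F : MvPolynomial (Fin (m + 1)) ℚ)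
    (hF : MvPolynomial.IsWeightedHomogeneous (wt (m + 1)) F (D + (m + 1)))
    (h : ev ℓ k (m + 1) (MvPolynomial.pderiv (Fin.last m) F) ∈ AnnP ℓ k (m + 1)) :
    ev ℓ k (m + 1) F ∈ Rm ℓ k m := by
  have := hFIN ℓ k
  have hL := hLCR
  set E := D + (m + 1) with hE
  set W := MvPolynomial.weightedHomogeneousSubmodule ℚ (wt (m + 1)) E with hW
  let f : W →ₗ[ℚ] RR ℓ k := (ph ℓ k (m + 1)).toLinearMap ∘ₗ W.subtype
  let g : W →ₗ[ℚ] RR ℓ k := (ph ℓ k (m + 1)).toLinearMap ∘ₗ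
    (MvPolynomial.pderiv (Fin.last m) :
      Derivation ℚ (MvPolynomial (Fin (m + 1)) ℚ) (MvPolynomial (Fin (m + 1)) ℚ)).toLinearMap ∘ₗ
      W.subtype
  have hf : ∀ w : W, f w = ph ℓ k (m + 1) w.1 := fun _ => rfl
  have hg : ∀ w : W, g w = ph ℓ k (m + 1) (MvPolynomial.pderiv (Fin.last m) w.1) := fun _ => rfl
  have hrf : LinearMap.range f = Rm ℓ k (m + 1) ⊓ RD ℓ k E := by
    ext x
    constructor
    · rintro ⟨w, rfl⟩
      rw [hf]
      exact ⟨(mem_Rm _ _ _ _).mpr ⟨w.1, rfl⟩, hom_mem ℓ k _ _ _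
        ((MvPolynomial.mem_weightedHomogeneousSubmodule ℚ _ _ _).mp w.2)⟩
    · rintro ⟨h1, h2⟩
      obtain ⟨F, hF, rfl⟩ := lift_hom ℓ k (m + 1) E x h1 h2
      exact ⟨⟨F, (MvPolynomial.mem_weightedHomogeneousSubmodule ℚ _ _ _).mpr hF⟩, rfl⟩
  have hrg : LinearMap.range g = Rm ℓ k (m + 1) ⊓ RD ℓ k D := by
    ext x
    constructor
    · rintro ⟨w, rfl⟩
      rw [hg]
      refine ⟨(mem_Rm _ _ _ _).mpr ⟨_, rfl⟩, hom_mem ℓ k _ _ _ ?_⟩
      refine MvPolynomial.IsWeightedHomogeneous.pderiv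
        ((MvPolynomial.mem_weightedHomogeneousSubmodule ℚ _ _ _).mp w.2) ?_
      simp [wt, hE]
    · rintro ⟨h1, h2⟩
      obtain ⟨F, hF, rfl⟩ := lift_hom ℓ k (m + 1) D x h1 h2
      obtain ⟨G, hG, rfl⟩ := pderiv_onto m D F hF
      exact ⟨⟨G, (MvPolynomial.mem_weightedHomogeneousSubmodule ℚ _ _ _).mpr hG⟩, rfl⟩
  set U : Submodule ℚ (RR ℓ k) := Rm ℓ k m ⊓ RD ℓ k E with hU
  set V : Submodule ℚ (RR ℓ k) := AnnP ℓ k (m + 1) ⊓ RD ℓ k D with hV
  have hUf : U ≤ LinearMap.range f := by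
    rw [hrf]
    exact inf_le_inf_right _ (Rm_mono ℓ k m)
  have hfw : ∀ w, f w ∈ U → g w ∈ V := by
    intro w hw
    have h7 : g w ∈ LinearMap.range g := ⟨w, rfl⟩
    rw [hrg] at h7
    refine ⟨?_, h7.2⟩
    intro z hz
    obtain ⟨G, hG⟩ := (mem_Rm _ _ _ _).mp hw.1
    have h1 : ph ℓ k (m + 1) (MvPolynomial.rename Fin.castSucc G) = ph ℓ k m G := by
      unfold ph
      rw [MvPolynomial.aeval_rename]
      rfl
    have h2 : ph ℓ k (m + 1) (w.1 - MvPolynomial.rename Fin.castSucc G) = 0 := by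
      rw [map_sub, h1, hG, hf, sub_self]
    have h3 := hL ℓ k (m + 1) _ h2 (Fin.last m) z hz
    have h4 : MvPolynomial.pderiv (Fin.last m) (MvPolynomial.rename Fin.castSucc G) = 0 := by
      classical
      apply MvPolynomial.pderiv_eq_zero_of_notMem_vars
      intro h5
      have h6 := MvPolynomial.vars_rename Fin.castSucc G h5
      rw [Finset.mem_image] at h6
      obtain ⟨i, _, hi⟩ := h6
      exact absurd hi (Fin.castSucc_lt_last i).ne
    rw [map_sub, h4, sub_zero] at h3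
    rw [hg]
    exact h3
  -- numbers
  have n1 : finrank ℚ ↥U = (ep gb ℓ k m).coeff (D + (m + 1)) :=
    main_holds gb gb_QB ℓ k m (by omega) (D + (m + 1))
  have n2 := main_holds gb gb_QB ℓ k (m + 1) hm D
  have n3 : finrank ℚ ↥(Rm ℓ k (m + 1) ⊓ RD ℓ k E) = (ep gb ℓ k (m + 1)).coeff (D + (m + 1)) :=
    main_holds gb gb_QB ℓ k (m + 1) hm (D + (m + 1))
  have n4 : finrank ℚ ↥V ≤ (jp gb ℓ k (m + 1)).coeff D := annJ gb_QB ℓ k (m + 1) (by omega) D
  have n5 := congrArg (fun p : Polynomial ℕ => p.coeff (D + (m + 1)))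
    (Pool.Agent.W103.RT.t_NUM1 gb gb_QB ℓ k m hm)
  simp only [Polynomial.coeff_add] at n5
  rw [Polynomial.coeff_X_pow_mul', Polynomial.coeff_X_pow_mul', if_pos (by omega),
    if_pos (by omega)] at n5
  simp only [Nat.add_sub_cancel] at n5
  -- every element of `V` comes from `comap f U`
  have hV' : Submodule.map g (Submodule.comap f U) = V := by
    have h1 := la f g U (Submodule.map g (Submodule.comap f U)) hUf
      (fun w hw => ⟨w, hw, rfl⟩)
    apply Submodule.eq_of_le_of_finrank_le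
    · rintro _ ⟨w, hw, rfl⟩
      exact hfw w hw
    · rw [hrf, hrg] at h1
      omega
  -- the kernel of `g` is in `comap f U`
  have hU' : U ⊔ Submodule.map f (LinearMap.ker g) = U := by
    have h1 := la f g (U ⊔ Submodule.map f (LinearMap.ker g)) V (sup_le hUf (by
      rintro _ ⟨w, _, rfl⟩
      exact ⟨w, rfl⟩)) (by
      intro w hw
      rw [Submodule.mem_sup] at hw
      obtain ⟨u, hu, _, ⟨w0, hw0, rfl⟩, he⟩ := hw
      have h2 : f (w - w0) ∈ U := by
        rw [map_sub, ← he, add_sub_cancel_right]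
        exact hu
      have h3 := hfw _ h2
      rw [map_sub, LinearMap.mem_ker.1 hw0, sub_zero] at h3
      exact h3)
    symm
    apply Submodule.eq_of_le_of_finrank_le le_sup_left
    rw [hrf, hrg] at h1
    omega
  -- conclusion
  let w : W := ⟨F, (MvPolynomial.mem_weightedHomogeneousSubmodule ℚ _ _ _).mpr hF⟩
  have hgw : g w ∈ V := by
    refine ⟨h, ?_⟩
    have h7 : g w ∈ LinearMap.range g := ⟨w, rfl⟩
    rw [hrg] at h7
    exact h7.2
  rw [← hV'] at hgw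
  obtain ⟨w', hw', he⟩ := hgw
  have h8 : w - w' ∈ LinearMap.ker g := by
    rw [LinearMap.mem_ker, map_sub, he, sub_self]
  have h9 : f (w - w') ∈ U := by
    rw [← hU']
    exact Submodule.mem_sup_right ⟨_, h8, rfl⟩
  have h10 : f w ∈ U := by
    have := U.add_mem h9 hw'
    rwa [map_sub, sub_add_cancel] at this
  exact h10.1

end Pool.Agent.Y861.RT
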