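import Pool.Agent.Y861.RT.Crit

/-!
# The general criterion, and the quotients by the ideals of Hankel minors
-/

set_option autoImplicit false

namespace Pool.Agent.Y861.RT

open Polynomial Pool.Agent.W181.RT Module Pool.Agent.W481.RT

/-- the weighted homogeneous components -/
noncomputable def comp {m : ℕ} (E : ℕ) (F : MvPolynomial (Fin m) ℚ) : MvPolynomial (Fin m) ℚ :=
  ∑ s ∈ F.support.filter (fun s => Finsupp.weight (wt m) s = E),
    MvPolynomial.monomial s (MvPolynomial.coeff s F)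

theorem comp_hom {m : ℕ} (E : ℕ) (F : MvPolynomial (Fin m) ℚ) :
    MvPolynomial.IsWeightedHomogeneous (wt m) (comp E F) E := by
  classical
  rw [← MvPolynomial.mem_weightedHomogeneousSubmodule ℚ]
  refine Submodule.sum_mem _ fun s hs => ?_
  rw [MvPolynomial.mem_weightedHomogeneousSubmodule]
  exact MvPolynomial.isWeightedHomogeneous_monomial _ _ _ (Finset.mem_filter.mp hs).2

theorem exists_bound {m : ℕ} (F : MvPolynomial (Fin m) ℚ) :
    ∃ N : ℕ, ∀ M, N ≤ M → F = ∑ E ∈ Finset.range M, comp E F := by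
  classical
  refine ⟨(F.support.sup (fun s => Finsupp.weight (wt m) s)) + 1, fun M hM => ?_⟩
  conv_lhs => rw [F.as_sum]
  unfold comp
  symm
  apply Finset.sum_fiberwise_of_maps_to
  intro s hs
  rw [Finset.mem_range]
  have := Finset.le_sup (f := fun s => Finsupp.weight (wt m) s) hs
  omega

theorem weight_last (m : ℕ) (s : Fin (m + 1) →₀ ℕ) :
    s (Fin.last m) * (m + 1) ≤ Finsupp.weight (wt (m + 1)) s := by
  have h2 : Finsupp.weight (wt (m + 1)) s = ∑ i : Fin (m + 1), s i * ((i : ℕ) + 1) := by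
    rw [Finsupp.weight_apply, Finsupp.sum_fintype _ _ (fun i => by simp)]
    rfl
  rw [h2, Fin.sum_univ_castSucc]
  simp

theorem small_last {m E : ℕ} (hE : E < m + 1) (s : Fin (m + 1) →₀ ℕ)
    (hs : Finsupp.weight (wt (m + 1)) s = E) : s (Fin.last m) = 0 := by
  have h := weight_last m s
  rw [hs] at h
  by_contra h0
  have h1 : 1 ≤ s (Fin.last m) := Nat.one_le_iff_ne_zero.mpr h0
  nlinarith

theorem comp_small_ev (ℓ k m E : ℕ) (hE : E < m + 1) (F : MvPolynomial (Fin (m + 1)) ℚ) :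
    ev ℓ k (m + 1) (comp E F) ∈ Rm ℓ k m := by
  classical
  unfold comp
  rw [map_sum]
  refine Submodule.sum_mem _ fun s hs => ?_
  have h0 := small_last hE s (Finset.mem_filter.mp hs).2
  have h1 : ev ℓ k (m + 1) (MvPolynomial.monomial s (MvPolynomial.coeff s F)) =
      (MvPolynomial.coeff s F) • ∏ i : Fin m, qq ℓ k (i : ℕ) ^ s i.castSucc := by
    unfold ev
    rw [MvPolynomial.aeval_monomial, Finsupp.prod_fintype _ _ (fun i => pow_zero _),
      Fin.prod_univ_castSucc, h0, pow_zero, mul_one]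
    exact (Algebra.smul_def _ _).symm
  rw [h1]
  refine Submodule.smul_mem _ _ ?_
  unfold Rm
  rw [Subalgebra.mem_toSubmodule]
  have hq : ∀ i : Fin m, qq ℓ k (i : ℕ) ∈
      Algebra.adjoin ℚ {x : RR ℓ k | ∃ a : ℕ, a < m ∧ x = qq ℓ k a} :=
    fun i => Algebra.subset_adjoin ⟨(i : ℕ), i.2, rfl⟩
  exact Subalgebra.prod_mem _ fun i _ => Subalgebra.pow_mem _ (hq i) _

theorem comp_small_pd (m E : ℕ) (hE : E < m + 1) (F : MvPolynomial (Fin (m + 1)) ℚ) :
    MvPolynomial.pderiv (Fin.last m) (comp E F) = 0 := by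
  classical
  unfold comp
  rw [map_sum]
  refine Finset.sum_eq_zero fun s hs => ?_
  have h0 := small_last hE s (Finset.mem_filter.mp hs).2
  rw [MvPolynomial.pderiv_monomial, h0, Nat.cast_zero, mul_zero, map_zero]

/-- The criterion: a polynomial in the first `m + 1` power sums is a polynomial in the first `m`
power sums if and only if its last partial derivative annihilates the ideal of minors. -/
theorem crit (ℓ k m : ℕ) (hm : m + 1 ≤ min k ℓ) (F : MvPolynomial (Fin (m + 1)) ℚ) :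
    ev ℓ k (m + 1) F ∈ Rm ℓ k m ↔
      ev ℓ k (m + 1) (MvPolynomial.pderiv (Fin.last m) F) ∈ AnnP ℓ k (m + 1) := by
  constructor
  · intro hF z hz
    obtain ⟨G, hG⟩ := (mem_Rm _ _ _ _).mp hF
    have h1 : ph ℓ k (m + 1) (MvPolynomial.rename Fin.castSucc G) = ph ℓ k m G := by
      unfold ph
      rw [MvPolynomial.aeval_rename]
      rfl
    have h2 : ph ℓ k (m + 1) (F - MvPolynomial.rename Fin.castSucc G) = 0 := by
      rw [map_sub, h1, hG, ph_ev, sub_self]
    have h3 := hLCR ℓ k (m + 1) _ h2 (Fin.last m) z hz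
    have h4 : MvPolynomial.pderiv (Fin.last m) (MvPolynomial.rename Fin.castSucc G) = 0 := by
      classical
      apply MvPolynomial.pderiv_eq_zero_of_notMem_vars
      intro h5
      have h6 := MvPolynomial.vars_rename Fin.castSucc G h5
      rw [Finset.mem_image] at h6
      obtain ⟨i, _, hi⟩ := h6
      exact absurd hi (Fin.castSucc_lt_last i).ne
    rw [map_sub, h4, sub_zero] at h3
    exact h3
  · intro h
    obtain ⟨N, hN⟩ := exists_bound F
    have hF := hN (m + 1 + N) (by omega)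
    rw [Finset.sum_range_add] at hF
    have hy : ∀ D, ev ℓ k (m + 1) (MvPolynomial.pderiv (Fin.last m) (comp (m + 1 + D) F)) ∈
        RD ℓ k D := by
      intro D
      rw [← ph_ev]
      refine hom_mem ℓ k _ _ _ ?_
      refine MvPolynomial.IsWeightedHomogeneous.pderiv (comp_hom _ F) ?_
      simp [wt]
      omega
    have hs : ∑ D ∈ Finset.range N,
        ev ℓ k (m + 1) (MvPolynomial.pderiv (Fin.last m) (comp (m + 1 + D) F)) ∈
          AnnP ℓ k (m + 1) := by
      have e : MvPolynomial.pderiv (Fin.last m) F = ∑ D ∈ Finset.range N,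
          MvPolynomial.pderiv (Fin.last m) (comp (m + 1 + D) F) := by
        conv_lhs => rw [hF]
        rw [map_add, map_sum, map_sum]
        rw [Finset.sum_eq_zero (s := Finset.range (m + 1)) fun E hE =>
          comp_small_pd m E (Finset.mem_range.mp hE) F, zero_add]
      rw [e, map_sum] at h
      exact h
    have hparts := Ann_part ℓ k (m + 1) (Finset.range N) _ hy hs
    rw [hF, map_add, map_sum, map_sum]
    refine Submodule.add_mem _ (Submodule.sum_mem _ fun E hE => ?_)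
      (Submodule.sum_mem _ fun D hD => ?_)
    · exact comp_small_ev ℓ k m E (Finset.mem_range.mp hE) F
    · refine crit_hom ℓ k m D hm _ ?_ (hparts D hD)
      have := comp_hom (m + 1 + D) F
      rwa [add_comm (m + 1) D] at this ⊢

/-! ### the quotients -/

/-- Hilbert series of the quotient by the ideal of minors -/
noncomputable def np (ℓ k m : ℕ) : Polynomial ℕ :=
  ∑ i ∈ Finset.range m, (Polynomial.X : Polynomial ℕ) ^ (i * i) * gb k i * gb ℓ i

theorem Np_eq (ℓ k m : ℕ) (hm : m ≤ min k ℓ + 1) : Np ℓ k m = np ℓ k m := by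
  unfold Np np
  refine Finset.sum_congr rfl fun i hi => ?_
  have hi := Finset.mem_range.mp hi
  rw [Pool.Agent.W103.RT.t_QB1 gb gb_QB i (k - i), Pool.Agent.W103.RT.t_QB1 gb gb_QB i (ℓ - i),
    Nat.sub_add_cancel (by omega), Nat.sub_add_cancel (by omega)]

/-- codimension of the ideal of minors in each degree: upper bound -/
theorem quot_le (ℓ k m : ℕ) (hm : m ≤ min k ℓ + 1) (D : ℕ) :
    finrank ℚ ↥(RD ℓ k D) ≤
      finrank ℚ ↥((PI (qq ℓ k) m).restrictScalars ℚ ⊓ RD ℓ k D) + (np ℓ k m).coeff D := by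
  have := hFIN ℓ k
  obtain ⟨U, hU, hUc, hUle⟩ := hBOUND ℓ k m hm D
  set P : Submodule ℚ (RR ℓ k) := (PI (qq ℓ k) m).restrictScalars ℚ with hP
  rw [Np_eq ℓ k m hm] at hUc
  have h1 := Submodule.finrank_sup_add_finrank_inf_eq P (RD ℓ k D)
  have h2 := Submodule.finrank_add_le_finrank_add_finrank U P
  have h3 : finrank ℚ ↥(P ⊔ RD ℓ k D) ≤ finrank ℚ ↥(U ⊔ P) :=
    Submodule.finrank_mono (sup_le le_sup_right hUle)
  omega

theorem quot_mono (ℓ k m D : ℕ) :
    finrank ℚ ↥((PI (qq ℓ k) m).restrictScalars ℚ ⊓ RD ℓ k D) ≤ finrank ℚ ↥(RD ℓ k D) := by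
  have := hFIN ℓ k
  exact Submodule.finrank_mono inf_le_right

/-- codimension of the ideal of minors in each degree: lower bound -/
theorem quot_ge (ℓ k m : ℕ) (hm : m ≤ min k ℓ) (D : ℕ) (hD : D ≤ k * ℓ) :
    finrank ℚ ↥((PI (qq ℓ k) m).restrictScalars ℚ ⊓ RD ℓ k D) + (np ℓ k m).coeff D ≤
      finrank ℚ ↥(RD ℓ k D) := by
  have := hFIN ℓ k
  obtain ⟨f, hf, hnd⟩ := hDUAL ℓ k
  have hA := ann_eq gb_QB ℓ k m hm (k * ℓ - D)
  have hN := Pool.Agent.W103.RT.t_NUM3 gb gb_QB ℓ k m (by omega) (k * ℓ - D) (Nat.sub_le _ _)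
  rw [Np_eq ℓ k m (by omega), Nat.sub_sub_self hD] at hN
  rw [hN, ← hA]
  set P : Submodule ℚ (RR ℓ k) := (PI (qq ℓ k) m).restrictScalars ℚ with hP
  -- the annihilator embeds into the dual of `RD / (P ⊓ RD)`
  set Q : Submodule ℚ ↥(RD ℓ k D) := P.comap (RD ℓ k D).subtype with hQ
  have hQr : finrank ℚ ↥Q = finrank ℚ ↥(P ⊓ RD ℓ k D) := by
    have h1 : Submodule.map (RD ℓ k D).subtype Q = P ⊓ RD ℓ k D := by
      rw [hQ, Submodule.map_comap_subtype, inf_comm]
    rw [← h1]
    exact (Submodule.finrank_map_subtype_eq _ _).symm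
  have hquo := Submodule.finrank_quotient_add_finrank Q
  let Ψ : ↥(AnnP ℓ k m ⊓ RD ℓ k (k * ℓ - D)) → (↥(RD ℓ k D) →ₗ[ℚ] ℚ) := fun x =>
    (f ∘ₗ LinearMap.mulLeft ℚ (x : RR ℓ k)) ∘ₗ (RD ℓ k D).subtype
  have hΨ : ∀ x, Q ≤ LinearMap.ker (Ψ x) := by
    intro x u hu
    rw [LinearMap.mem_ker]
    show f ((x : RR ℓ k) * (u : RR ℓ k)) = 0
    have hxu : (x : RR ℓ k) * (u : RR ℓ k) = 0 := x.2.1 _ hu
    rw [hxu, map_zero]
  let Φ : ↥(AnnP ℓ k m ⊓ RD ℓ k (k * ℓ - D)) →ₗ[ℚ] Module.Dual ℚ (↥(RD ℓ k D) ⧸ Q) :=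
    { toFun := fun x => Q.liftQ (Ψ x) (hΨ x)
      map_add' := by
        intro x y
        apply Submodule.linearMap_qext
        refine LinearMap.ext fun u => ?_
        show f (((x : RR ℓ k) + (y : RR ℓ k)) * (u : RR ℓ k)) =
          f ((x : RR ℓ k) * (u : RR ℓ k)) + f ((y : RR ℓ k) * (u : RR ℓ k))
        rw [add_mul, map_add]
      map_smul' := by
        intro c x
        apply Submodule.linearMap_qext
        refine LinearMap.ext fun u => ?_
        show f ((c • (x : RR ℓ k)) * (u : RR ℓ k)) = c • f ((x : RR ℓ k) * (u : RR ℓ k))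
        rw [smul_mul_assoc, map_smul] }
  have hinj : Function.Injective Φ := by
    rw [← LinearMap.ker_eq_bot, LinearMap.ker_eq_bot']
    intro x hx
    obtain ⟨x, hxA, hxD⟩ := x
    have h0 : x = 0 := by
      apply hnd
      refine Pool.Agent.W672.RT.f_all hDEC f x fun E y hy => ?_
      by_cases hE : (k * ℓ - D) + E = k * ℓ
      · have hE' : E = D := by omega
        subst hE'
        have h2 : (Φ ⟨x, hxA, hxD⟩) (Q.mkQ ⟨y, hy⟩) = f (x * y) := rfl
        rw [hx] at h2
        exact h2.symm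
      · exact Pool.Agent.W672.RT.f_orth f hf hE hxD hy
    exact Subtype.ext h0
  have h5 : finrank ℚ ↥(AnnP ℓ k m ⊓ RD ℓ k (k * ℓ - D)) ≤ finrank ℚ (↥(RD ℓ k D) ⧸ Q) :=
    (LinearMap.finrank_le_finrank_of_injective hinj).trans Subspace.dual_finrank_eq.le
  omega

end Pool.Agent.Y861.RT
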