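import Pool.Agent.W181.RT.Last
import Pool.Agent.W509.RT.Dec

/-!
# The ideals of Hankel minors and the subalgebras of low degree of the cohomology of Grassmannians

Consequences of the fact that the inequalities of the proof of the Reiner–Tudose identity are
equalities.
-/

set_option autoImplicit false

namespace Pool.Agent.Y861.RT

open Polynomial Pool.Agent.W181.RT Module

theorem hGEN : S_GEN := Pool.Agent.W509.RT.t_GEN
theorem hDEC : S_DEC := Pool.Agent.W509.RT.t_DEC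
theorem hLCR : S_LCR := Pool.Agent.W496.RT.lcr Pool.Agent.W428.RT.t_DER
theorem hVAN : S_VAN := Pool.Agent.W650.RT.t_VAN
theorem hSTAB : S_STAB := Pool.Agent.W650.RT.t_STAB
theorem hT2 : S_T2 := Pool.Agent.W628.RT.t Pool.Agent.W696.RT.t_HD
theorem hKI : S_KI := Pool.Agent.W225.RT.t_KI Pool.Agent.W451.RT.t_T1 hT2
theorem hT3 : S_T3 := Pool.Agent.W368.RT.t_T3 Pool.Agent.W696.RT.t_ALT
theorem hSPB : S_SPB := Pool.Agent.W271.RT.t_SPB Pool.Agent.W202.RT.SP.t_SP hGEN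
theorem hSTEP : S_STEP := Pool.Agent.W225.RT.t_STEP hT3 hKI hSPB
theorem hHOM : S_HOM := Pool.Agent.W368.RT.t_HOM
theorem hBOUND : S_BOUND := Pool.Agent.W439.RT.t_BOUND hSTEP hHOM hSTAB
theorem hFIN : S_FIN := Pool.Agent.W439.RT.t_FIN hSTEP hVAN
theorem hDUAL : S_DUAL := Pool.Agent.W241.RT.t_DUAL Pool.Agent.W696.RT.t_ALT Pool.Agent.W696.RT.t_HD
theorem hANN : S_ANN := Pool.Agent.W672.RT.t_ANN hDUAL hDEC hBOUND

/-- the chain inequality, with the part of the annihilator which lies in the subalgebra -/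
theorem chain' (ℓ k m D : ℕ) :
    finrank ℚ ↥(Rm ℓ k m ⊓ RD ℓ k (D + (m + 1))) + finrank ℚ ↥(Rm ℓ k (m + 1) ⊓ RD ℓ k D) ≤
      finrank ℚ ↥(Rm ℓ k (m + 1) ⊓ RD ℓ k (D + (m + 1))) +
        finrank ℚ ↥((AnnP ℓ k (m + 1) ⊓ Rm ℓ k (m + 1)) ⊓ RD ℓ k D) := by
  have := hFIN ℓ k
  have hL := hLCR
  set E := D + (m + 1) with hE
  set W := MvPolynomial.weightedHomogeneousSubmodule ℚ (Pool.Agent.W481.RT.wt (m + 1)) E with hW
  let f : W →ₗ[ℚ] RR ℓ k := (Pool.Agent.W481.RT.ph ℓ k (m + 1)).toLinearMap ∘ₗ W.subtype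
  let g : W →ₗ[ℚ] RR ℓ k := (Pool.Agent.W481.RT.ph ℓ k (m + 1)).toLinearMap ∘ₗ
    (MvPolynomial.pderiv (Fin.last m) :
      Derivation ℚ (MvPolynomial (Fin (m + 1)) ℚ) (MvPolynomial (Fin (m + 1)) ℚ)).toLinearMap ∘ₗ
      W.subtype
  have hf : ∀ w : W, f w = Pool.Agent.W481.RT.ph ℓ k (m + 1) w.1 := fun _ => rfl
  have hg : ∀ w : W, g w = Pool.Agent.W481.RT.ph ℓ k (m + 1)
    (MvPolynomial.pderiv (Fin.last m) w.1) := fun _ => rfl
  have hrf : LinearMap.range f = Rm ℓ k (m + 1) ⊓ RD ℓ k E := by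
    ext x
    constructor
    · rintro ⟨w, rfl⟩
      rw [hf]
      exact ⟨(Pool.Agent.W481.RT.mem_Rm _ _ _ _).mpr ⟨w.1, rfl⟩,
        Pool.Agent.W481.RT.hom_mem ℓ k _ _ _
          ((MvPolynomial.mem_weightedHomogeneousSubmodule ℚ _ _ _).mp w.2)⟩
    · rintro ⟨h1, h2⟩
      obtain ⟨F, hF, rfl⟩ := Pool.Agent.W481.RT.lift_hom ℓ k (m + 1) E x h1 h2
      exact ⟨⟨F, (MvPolynomial.mem_weightedHomogeneousSubmodule ℚ _ _ _).mpr hF⟩, rfl⟩
  have hrg : LinearMap.range g = Rm ℓ k (m + 1) ⊓ RD ℓ k D := by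
    ext x
    constructor
    · rintro ⟨w, rfl⟩
      rw [hg]
      refine ⟨(Pool.Agent.W481.RT.mem_Rm _ _ _ _).mpr ⟨_, rfl⟩,
        Pool.Agent.W481.RT.hom_mem ℓ k _ _ _ ?_⟩
      refine MvPolynomial.IsWeightedHomogeneous.pderiv
        ((MvPolynomial.mem_weightedHomogeneousSubmodule ℚ _ _ _).mp w.2) ?_
      simp [Pool.Agent.W481.RT.wt, hE]
    · rintro ⟨h1, h2⟩
      obtain ⟨F, hF, rfl⟩ := Pool.Agent.W481.RT.lift_hom ℓ k (m + 1) D x h1 h2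
      obtain ⟨G, hG, rfl⟩ := Pool.Agent.W481.RT.pderiv_onto m D F hF
      exact ⟨⟨G, (MvPolynomial.mem_weightedHomogeneousSubmodule ℚ _ _ _).mpr hG⟩, rfl⟩
  have key := Pool.Agent.W481.RT.la f g (Rm ℓ k m ⊓ RD ℓ k E)
    ((AnnP ℓ k (m + 1) ⊓ Rm ℓ k (m + 1)) ⊓ RD ℓ k D)
    (by rw [hrf]; exact inf_le_inf_right _ (Rm_mono ℓ k m)) (by
      intro w hw
      have h7 : g w ∈ LinearMap.range g := ⟨w, rfl⟩
      rw [hrg] at h7
      refine ⟨⟨?_, h7.1⟩, h7.2⟩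
      intro z hz
      obtain ⟨G, hG⟩ := (Pool.Agent.W481.RT.mem_Rm _ _ _ _).mp hw.1
      have h1 : Pool.Agent.W481.RT.ph ℓ k (m + 1) (MvPolynomial.rename Fin.castSucc G) =
          Pool.Agent.W481.RT.ph ℓ k m G := by
        unfold Pool.Agent.W481.RT.ph
        rw [MvPolynomial.aeval_rename]
        rfl
      have h2 : Pool.Agent.W481.RT.ph ℓ k (m + 1) (w.1 - MvPolynomial.rename Fin.castSucc G) = 0 := by
        rw [map_sub, h1, hG, hf, sub_self]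
      have h3 := hL ℓ k (m + 1) _ h2 (Fin.last m) z hz
      have h4 : MvPolynomial.pderiv (Fin.last m) (MvPolynomial.rename Fin.castSucc G) = 0 := by
        classical
        apply MvPolynomial.pderiv_eq_zero_of_notMem_vars
        intro h5
        have h6 := MvPolynomial.vars_rename Fin.castSucc G h5
        rw [Finset.mem_image] at h6
        obtain ⟨i, _, hi⟩ := h6
        exact absurd hi (Fin.castSucc_lt_last i).ne
      rw [map_sub, h4, sub_zero] at h3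
      rw [hg]
      exact h3)
  rw [hrf, hrg] at key
  omega

variable {qb : ℕ → ℕ → Polynomial ℕ}

theorem annJ (hqb : QB qb) (ℓ k m : ℕ) (hm : m ≤ min k ℓ + 1) (D : ℕ) :
    finrank ℚ ↥(AnnP ℓ k m ⊓ RD ℓ k D) ≤ (jp qb ℓ k m).coeff D := by
  have h := hANN ℓ k m hm D
  split_ifs at h with hD
  · rwa [Pool.Agent.W103.RT.t_NUM3 qb hqb ℓ k m hm D hD] at h
  · omega

theorem jp_zero (ℓ k : ℕ) : jp qb ℓ k 0 = 0 := by
  simp [jp]

theorem low (hqb : QB qb) (ℓ k m : ℕ) (hm : m + 1 ≤ min k ℓ) (D : ℕ) :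
    (jp qb ℓ k (m + 1)).coeff D ≤
      finrank ℚ ↥((AnnP ℓ k (m + 1) ⊓ Rm ℓ k (m + 1)) ⊓ RD ℓ k D) := by
  have h1 := chain' ℓ k m D
  have h2 := main_holds qb hqb ℓ k m (by omega) (D + (m + 1))
  have h3 := main_holds qb hqb ℓ k (m + 1) hm D
  have h4 := main_holds qb hqb ℓ k (m + 1) hm (D + (m + 1))
  have h := congrArg (fun p : Polynomial ℕ => p.coeff (D + (m + 1)))
    (Pool.Agent.W103.RT.t_NUM1 qb hqb ℓ k m hm)
  simp only [Polynomial.coeff_add] at h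
  rw [Polynomial.coeff_X_pow_mul', Polynomial.coeff_X_pow_mul', if_pos (by omega),
    if_pos (by omega)] at h
  simp only [Nat.add_sub_cancel] at h
  omega

theorem le_inf (ℓ k m D : ℕ) : (AnnP ℓ k m ⊓ Rm ℓ k m) ⊓ RD ℓ k D ≤ AnnP ℓ k m ⊓ RD ℓ k D :=
  inf_le_inf_right _ inf_le_left

/-- dimensions of the annihilators -/
theorem ann_eq (hqb : QB qb) (ℓ k m : ℕ) (hm : m ≤ min k ℓ) (D : ℕ) :
    finrank ℚ ↥(AnnP ℓ k m ⊓ RD ℓ k D) = (jp qb ℓ k m).coeff D := by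
  have := hFIN ℓ k
  apply le_antisymm (annJ hqb ℓ k m (by omega) D)
  rcases Nat.eq_zero_or_pos m with h | h
  · subst h
    rw [jp_zero, coeff_zero]
    exact Nat.zero_le _
  · obtain ⟨n, rfl⟩ : ∃ n, m = n + 1 := ⟨m - 1, by omega⟩
    exact (low hqb ℓ k n hm D).trans (Submodule.finrank_mono (le_inf ℓ k _ D))

theorem ann_le_D (hqb : QB qb) (ℓ k m : ℕ) (hm : m ≤ min k ℓ) (D : ℕ) :
    AnnP ℓ k m ⊓ RD ℓ k D ≤ Rm ℓ k m := by
  have := hFIN ℓ k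
  rcases Nat.eq_zero_or_pos m with h | h
  · subst h
    have h0 := ann_eq hqb ℓ k 0 hm D
    rw [jp_zero, coeff_zero, Submodule.finrank_eq_zero] at h0
    rw [h0]
    exact bot_le
  · obtain ⟨n, rfl⟩ : ∃ n, m = n + 1 := ⟨m - 1, by omega⟩
    have h1 : (AnnP ℓ k (n + 1) ⊓ Rm ℓ k (n + 1)) ⊓ RD ℓ k D = AnnP ℓ k (n + 1) ⊓ RD ℓ k D :=
      Submodule.eq_of_le_of_finrank_le (le_inf ℓ k _ D)
        ((annJ hqb ℓ k _ (by omega) D).trans (low hqb ℓ k n hm D))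
    rw [← h1]
    exact inf_le_left.trans inf_le_right

end Pool.Agent.Y861.RT
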